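import Pool.Agent.Helper4.SplineUpper

/-! On the checkerboard mixed three-direction mesh the space `S_3^1` has approximation order
exactly `4`. -/

open Helper4.MixedMesh in
theorem Pool.Agent.Results.MP_424b4b_an.CheckerboardOrderFour.result :
    ∃ σ : ℤ → ℤ → Bool, ∀ n : WithTop ℕ∞, 4 ≤ n →
      IsGreatest {ρ : ℝ | HasApproxOrder σ n ρ} 4 :=
  ⟨Helper4.Spline.chk, fun n hn =>
    ⟨Helper4.Spline.order_four n hn, fun ρ hρ => Helper4.Spline.order_le n ρ hρ⟩⟩
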